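import Pool.Agent.EWG.StmtsA

/-! Row RSE of squad EWG (MP_b66c3b_nt): rank two implies Erdos-Woods. -/

set_option autoImplicit false

namespace Pool.Agent.EWG.H51

theorem rse : RseStmt := by
  intro x
  unfold r2Count ewCount
  apply Set.ncard_le_ncard
  · rintro d ⟨hd, h3, a, ha, -⟩
    exact ⟨hd, h3, a, ha⟩
  · exact (Set.finite_Iic x).subset (fun d hd => hd.1)

end Pool.Agent.EWG.H51
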