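import Pool.Agent.EWG.StmtsB

/-! Row TY1 of squad EWG (MP_b66c3b_nt): the linear part in Vaughan's identity is small. -/

set_option autoImplicit false

namespace Pool.Agent.EWG.H51

open Finset Pool.Agent.PrimeFourier
open scoped BigOperators

theorem abs_D_le {l : ℕ} (hl : l.Prime) (n : ℕ) : |D l n| ≤ 1 := by
  have h2 : (2 : ℝ) ≤ l := by exact_mod_cast hl.two_le
  have h3 : 0 ≤ 1 / ((l : ℝ) - 1) := by
    apply div_nonneg zero_le_one
    linarith
  have h4 : 1 / ((l : ℝ) - 1) ≤ 1 := by
    rw [div_le_one (by linarith)]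
    linarith
  unfold D
  rw [abs_le]
  split_ifs <;> constructor <;> linarith

theorem ty1 (h1 : TpbStmt) : Ty1Stmt := by
  intro l U V x hl hU hV hUx
  have hx1 : 1 ≤ x := hU.trans hUx
  have hx0 : (0 : ℝ) < x := by exact_mod_cast hx1
  have hL : 0 ≤ Real.log x := Real.log_nonneg (by exact_mod_cast hx1)
  have hlog : ∀ k : ℕ, k ≤ x → Real.log (k : ℝ) ≤ Real.log x := by
    intro k hk
    rcases Nat.eq_zero_or_pos k with h | h
    · subst h
      simpa using hL
    · exact Real.log_le_log (by exact_mod_cast h) (by exact_mod_cast hk)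
  have hLam : ∀ n : ℕ, n ≤ x → |ArithmeticFunction.vonMangoldt n| ≤ Real.log x := by
    intro n hn
    rw [abs_of_nonneg ArithmeticFunction.vonMangoldt_nonneg]
    exact ArithmeticFunction.vonMangoldt_le_log.trans (hlog n hn)
  have hmu : ∀ b : ℕ, |(ArithmeticFunction.moebius b : ℝ)| ≤ 1 := by
    intro b
    have h := ArithmeticFunction.abs_moebius_le_one (n := b)
    exact_mod_cast h
  have hU1 : (1 : ℝ) ≤ U := by exact_mod_cast hU
  have hV1 : (1 : ℝ) ≤ V := by exact_mod_cast hV
  -- first sum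
  have s1 : |∑ n ∈ Ioc 0 U, ArithmeticFunction.vonMangoldt n * D l n| ≤ U * Real.log x := by
    refine (Finset.abs_sum_le_sum_abs _ _).trans ?_
    have h : ∑ n ∈ Ioc 0 U, |ArithmeticFunction.vonMangoldt n * D l n| ≤
        ∑ _n ∈ Ioc 0 U, Real.log x := by
      apply Finset.sum_le_sum
      intro n hn
      rw [Finset.mem_Ioc] at hn
      rw [abs_mul]
      calc |ArithmeticFunction.vonMangoldt n| * |D l n|
          ≤ Real.log x * 1 := mul_le_mul (hLam n (hn.2.trans hUx)) (abs_D_le hl n)
            (abs_nonneg _) hL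
        _ = Real.log x := mul_one _
    refine h.trans (le_of_eq ?_)
    simp
  -- second sum
  have s2 : |∑ b ∈ Ioc 0 V, (ArithmeticFunction.moebius b : ℝ)
      * ∑ k ∈ Ioc 0 (x / b), Real.log k * D l (b * k)| ≤ V * (2 * Real.log x) := by
    refine (Finset.abs_sum_le_sum_abs _ _).trans ?_
    have h : ∑ b ∈ Ioc 0 V, |(ArithmeticFunction.moebius b : ℝ)
        * ∑ k ∈ Ioc 0 (x / b), Real.log k * D l (b * k)| ≤
        ∑ _b ∈ Ioc 0 V, 2 * Real.log x := by
      apply Finset.sum_le_sum
      intro b _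
      rw [abs_mul]
      have h2 := (h1 l b (x / b) hl).2
      have h3 := hlog (x / b) (Nat.div_le_self x b)
      calc |(ArithmeticFunction.moebius b : ℝ)| * |∑ k ∈ Ioc 0 (x / b), Real.log k * D l (b * k)|
          ≤ 1 * (2 * Real.log x) := mul_le_mul (hmu b) (h2.trans (by linarith))
            (abs_nonneg _) zero_le_one
        _ = 2 * Real.log x := one_mul _
    refine h.trans (le_of_eq ?_)
    simp
  -- third sum
  have s3 : |∑ b ∈ Ioc 0 V, ∑ c ∈ Ioc 0 U, (ArithmeticFunction.moebius b : ℝ)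
      * ArithmeticFunction.vonMangoldt c * ∑ k ∈ Ioc 0 (x / (b * c)), D l (b * c * k)| ≤
      V * (U * Real.log x) := by
    refine (Finset.abs_sum_le_sum_abs _ _).trans ?_
    have h : ∑ b ∈ Ioc 0 V, |∑ c ∈ Ioc 0 U, (ArithmeticFunction.moebius b : ℝ)
        * ArithmeticFunction.vonMangoldt c * ∑ k ∈ Ioc 0 (x / (b * c)), D l (b * c * k)| ≤
        ∑ _b ∈ Ioc 0 V, (U * Real.log x : ℝ) := by
      apply Finset.sum_le_sum
      intro b _
      refine (Finset.abs_sum_le_sum_abs _ _).trans ?_
      have h' : ∑ c ∈ Ioc 0 U, |(ArithmeticFunction.moebius b : ℝ)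
          * ArithmeticFunction.vonMangoldt c * ∑ k ∈ Ioc 0 (x / (b * c)), D l (b * c * k)| ≤
          ∑ _c ∈ Ioc 0 U, Real.log x := by
        apply Finset.sum_le_sum
        intro c hc
        rw [Finset.mem_Ioc] at hc
        rw [abs_mul, abs_mul]
        have h2 := (h1 l (b * c) (x / (b * c)) hl).1
        calc |(ArithmeticFunction.moebius b : ℝ)| * |ArithmeticFunction.vonMangoldt c| *
              |∑ k ∈ Ioc 0 (x / (b * c)), D l (b * c * k)|
            ≤ (1 * Real.log x) * 1 := mul_le_mul (mul_le_mul (hmu b)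
              (hLam c (hc.2.trans hUx)) (abs_nonneg _) zero_le_one) h2 (abs_nonneg _)
              (by rw [one_mul]; exact hL)
          _ = Real.log x := by ring
      refine h'.trans (le_of_eq ?_)
      simp
    refine h.trans (le_of_eq ?_)
    simp
  have e : |S123 U V x (D l)| ≤ U * Real.log x + V * (2 * Real.log x) +
      V * (U * Real.log x) := by
    unfold S123
    refine (abs_sub _ _).trans ?_
    refine add_le_add ((abs_add_le _ _).trans (add_le_add s1 s2)) s3
  refine e.trans ?_
  have hUV : (U : ℝ) ≤ U * V := by nlinarith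
  have hVU : (V : ℝ) ≤ U * V := by nlinarith
  nlinarith [mul_nonneg (sub_nonneg.2 hUV) hL, mul_nonneg (sub_nonneg.2 hVU) hL]

end Pool.Agent.EWG.H51
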