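import Pool.Agent.EWG.StmtsB

/-! Row DUA of squad EWG (MP_b66c3b_nt): the dual large sieve with the plain Dirichlet kernel. -/

set_option autoImplicit false

namespace Pool.Agent.EWG.H51

open Finset Pool.Agent.PrimeFourier
open scoped BigOperators

theorem dua : DuaStmt := by
  intro ι S x b q N hq hsep
  classical
  set W : ι → ι → ℝ := fun i j => bd N (dist1 (x i - x j)) with hW
  have hWs : ∀ i j, W i j = W j i := by
    intro i j
    simp only [hW]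
    rw [← dist1_neg (x i - x j), neg_sub]
  have hW0 : ∀ i j, 0 ≤ W i j := fun i j => bd_nonneg (Nat.cast_nonneg N) (dist1_nonneg _)
  have hsum : ∀ i, ∑ j ∈ S, W i j ≤ 4 * (N : ℝ) + 4 * q * (1 + Real.log q) := by
    intro i
    refine sum_bd_separated S (fun j => x i - x j) hq ?_ (Nat.cast_nonneg N)
    intro j hj l hl hjl
    have h := hsep l hl j hj (Ne.symm hjl)
    have e1 : (x i - x j) - (x i - x l) = x l - x j := by ring
    simp only [e1]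
    exact h
  have key : ∑ n ∈ Ioc 0 N, ‖∑ i ∈ S, b i * e (x i * n)‖ ^ 2 ≤
      ∑ i ∈ S, ∑ j ∈ S, ‖b i‖ * ‖b j‖ * W i j := by
    have h1 : ((∑ n ∈ Ioc 0 N, ‖∑ i ∈ S, b i * e (x i * n)‖ ^ 2 : ℝ) : ℂ) =
        ∑ i ∈ S, ∑ j ∈ S, (b i * (starRingEnd ℂ) (b j)) *
          ∑ n ∈ Ioc 0 N, e ((x i - x j) * n) := by
      push_cast
      have h2 : ∀ n ∈ Ioc 0 N, ((‖∑ i ∈ S, b i * e (x i * n)‖ : ℝ) : ℂ) ^ 2 =
          ∑ i ∈ S, ∑ j ∈ S, (b i * (starRingEnd ℂ) (b j)) * e ((x i - x j) * n) := by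
        intro n _
        rw [← Complex.mul_conj', map_sum, Finset.sum_mul_sum]
        apply Finset.sum_congr rfl
        intro i _
        apply Finset.sum_congr rfl
        intro j _
        rw [map_mul, conj_e]
        have e1 : (x i - x j) * (n : ℝ) = x i * n + -(x j * n) := by ring
        rw [e1, e_add]
        ring
      rw [Finset.sum_congr rfl h2, Finset.sum_comm]
      apply Finset.sum_congr rfl
      intro i _
      rw [Finset.sum_comm]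
      apply Finset.sum_congr rfl
      intro j _
      rw [Finset.mul_sum]
    have h3 : ∑ n ∈ Ioc 0 N, ‖∑ i ∈ S, b i * e (x i * n)‖ ^ 2 =
        ‖((∑ n ∈ Ioc 0 N, ‖∑ i ∈ S, b i * e (x i * n)‖ ^ 2 : ℝ) : ℂ)‖ := by
      rw [Complex.norm_real, Real.norm_of_nonneg (Finset.sum_nonneg (fun _ _ => by positivity))]
    rw [h3, h1]
    refine (norm_sum_le _ _).trans (Finset.sum_le_sum fun i _ =>
      (norm_sum_le _ _).trans (Finset.sum_le_sum fun j _ => ?_))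
    rw [norm_mul, norm_mul, RCLike.norm_conj]
    exact mul_le_mul_of_nonneg_left (norm_sum_e_le' _ 0 N (by simp)) (by positivity)
  have h5 : ∑ i ∈ S, ∑ j ∈ S, ‖b i‖ * ‖b j‖ * W i j ≤
      ∑ i ∈ S, ∑ j ∈ S, ((‖b i‖ ^ 2 * W i j) / 2 + (‖b j‖ ^ 2 * W j i) / 2) := by
    apply Finset.sum_le_sum
    intro i _
    apply Finset.sum_le_sum
    intro j _
    rw [hWs j i]
    nlinarith [hW0 i j, mul_nonneg (sq_nonneg (‖b i‖ - ‖b j‖)) (hW0 i j)]
  have h6 : ∑ i ∈ S, ∑ j ∈ S, (‖b j‖ ^ 2 * W j i) / 2 =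
      ∑ i ∈ S, ∑ j ∈ S, (‖b i‖ ^ 2 * W i j) / 2 := Finset.sum_comm
  have h7 : ∑ i ∈ S, ∑ j ∈ S, (‖b i‖ ^ 2 * W i j) / 2 =
      (∑ i ∈ S, ‖b i‖ ^ 2 * ∑ j ∈ S, W i j) / 2 := by
    rw [Finset.sum_div]
    apply Finset.sum_congr rfl
    intro i _
    rw [Finset.mul_sum, Finset.sum_div]
  have h8 : ∑ i ∈ S, ∑ j ∈ S, ((‖b i‖ ^ 2 * W i j) / 2 + (‖b j‖ ^ 2 * W j i) / 2) =
      ∑ i ∈ S, ‖b i‖ ^ 2 * ∑ j ∈ S, W i j := by
    simp only [Finset.sum_add_distrib]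
    rw [h6, h7]
    ring
  have h9 : ∑ i ∈ S, ‖b i‖ ^ 2 * ∑ j ∈ S, W i j ≤
      (4 * (N : ℝ) + 4 * q * (1 + Real.log q)) * ∑ i ∈ S, ‖b i‖ ^ 2 := by
    rw [Finset.mul_sum]
    apply Finset.sum_le_sum
    intro i _
    rw [mul_comm]
    exact mul_le_mul_of_nonneg_right (hsum i) (sq_nonneg _)
  exact key.trans (h5.trans (h8.le.trans h9))

end Pool.Agent.EWG.H51
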